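import Mathlib

/-!
# Graphs whose domination number equals the eternal domination number but not the clique
covering number

Let `S = -S` be a subset of an elementary abelian 3-group `A` such that every nonzero element
is a sum `s + t` with `s, t ∈ S`, in a unique way up to order (the columns of the parity check
matrix of a perfect ternary 2-error-correcting code and their negatives).  In the Cayley graph
`R` of `A`, the triples of vertices without common neighbour form an eternal family of the
complement of `R`.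
-/

set_option autoImplicit false
set_option linter.unusedSectionVars false

namespace Pool.Agent.W835.Golay

variable {A : Type} [AddCommGroup A] [DecidableEq A]

/-- The hypotheses on the connection set. -/
structure Perf (S : Finset A) : Prop where
  three : ∀ x : A, x + x + x = 0
  neg : ∀ s ∈ S, -s ∈ S
  zero : (0 : A) ∉ S
  rep : ∀ x : A, x ≠ 0 → ∃ s ∈ S, ∃ t ∈ S, s + t = x
  uniq : ∀ s ∈ S, ∀ t ∈ S, ∀ s' ∈ S, ∀ t' ∈ S, s + t ≠ 0 → s + t = s' + t' →
    (s' = s ∧ t' = t) ∨ (s' = t ∧ t' = s)

/-- The Cayley graph. -/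
def R (S : Finset A) (hS : Perf S) : SimpleGraph A where
  Adj x y := x - y ∈ S
  symm := ⟨fun x y h => by
    have := hS.neg _ h
    rwa [neg_sub] at this⟩
  loopless := ⟨fun x h => by
    have h' : x - x ∈ S := h
    rw [sub_self] at h'
    exact hS.zero h'⟩

variable {S : Finset A} (hS : Perf S)

include hS

theorem adj_iff (x y : A) : (R S hS).Adj x y ↔ x - y ∈ S := Iff.rfl

theorem third (u v w : A) (huv : (R S hS).Adj u v) (hu : (R S hS).Adj u w)
    (hv : (R S hS).Adj w v) : w = -(u + v) := by
  rw [adj_iff] at *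
  have hs : u - v ≠ 0 := fun h => hS.zero (h ▸ huv)
  have hn : -(u - v) ∈ S := hS.neg _ huv
  have e1 : -(u - v) + -(u - v) = u - v := by
    have := hS.three (u - v)
    have h2 : u - v = -((u - v) + (u - v)) := by
      rw [eq_neg_iff_add_eq_zero, ← add_assoc]; exact this
    rw [← neg_add]; exact h2.symm
  have e2 : (u - w) + (w - v) = u - v := by abel
  have h := hS.uniq _ hn _ hn _ hu _ hv (by rw [e1]; exact hs) (by rw [e1, e2])
  have h3 : w - v = -(u - v) := by rcases h with h | h <;> exact h.2
  have h4 : w = v + v - u := by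
    have : w = (w - v) + v := by abel
    rw [this, h3]; abel
  have h5 := hS.three v
  have h6 : v + v = -v := by rw [eq_neg_iff_add_eq_zero]; exact h5
  rw [h4, h6]; abel

/-- Triples without common neighbour. -/
def Fam : Set (Finset A) := {D | D.card = 3 ∧ ¬ ∃ w, ∀ d ∈ D, (R S hS).Adj w d}

theorem defend (a b c r : A) (hra : r ≠ a) (hrb : r ≠ b) (hrc : r ≠ c)
    (hab : a ≠ b) (hac : a ≠ c) (hbc : b ≠ c)
    (hD : ¬ ∃ w, (R S hS).Adj w a ∧ (R S hS).Adj w b ∧ (R S hS).Adj w c)
    (ha : (R S hS).Adj r a ∨ ∃ w, (R S hS).Adj w b ∧ (R S hS).Adj w c ∧ (R S hS).Adj w r)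
    (hb : (R S hS).Adj r b ∨ ∃ w, (R S hS).Adj w a ∧ (R S hS).Adj w c ∧ (R S hS).Adj w r)
    (hc : (R S hS).Adj r c ∨ ∃ w, (R S hS).Adj w a ∧ (R S hS).Adj w b ∧ (R S hS).Adj w r) :
    False := by
  have two : ∀ a b r : A, a ≠ b → (R S hS).Adj r a → (R S hS).Adj r b →
      ¬ ∃ w, (R S hS).Adj w a ∧ (R S hS).Adj w b ∧ (R S hS).Adj w r := by
    rintro a b r hab h1 h2 ⟨w, h3, h4, h5⟩
    have k1 := third hS r w a h5.symm h1 h3.symm
    have k2 := third hS r w b h5.symm h2 h4.symm
    exact hab (k1.trans k2.symm)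
  have one : ∀ a b c r : A, (R S hS).Adj r a →
      (∃ w, (R S hS).Adj w a ∧ (R S hS).Adj w c ∧ (R S hS).Adj w r) →
      (∃ w, (R S hS).Adj w a ∧ (R S hS).Adj w b ∧ (R S hS).Adj w r) →
      ∃ w, (R S hS).Adj w a ∧ (R S hS).Adj w b ∧ (R S hS).Adj w c := by
    rintro a b c r h ⟨w, h1, h2, h3⟩ ⟨w', h1', h2', h3'⟩
    have k1 := third hS r a w h h3.symm h1
    have k2 := third hS r a w' h h3'.symm h1'
    subst k1; subst k2
    exact ⟨_, h1, h2', h2⟩
  have zer : ∀ a b c r : A, r ≠ a → r ≠ b → r ≠ c →
      (∃ w, (R S hS).Adj w b ∧ (R S hS).Adj w c ∧ (R S hS).Adj w r) →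
      (∃ w, (R S hS).Adj w a ∧ (R S hS).Adj w c ∧ (R S hS).Adj w r) →
      (∃ w, (R S hS).Adj w a ∧ (R S hS).Adj w b ∧ (R S hS).Adj w r) →
      ∃ w, (R S hS).Adj w a ∧ (R S hS).Adj w b ∧ (R S hS).Adj w c := by
    rintro a b c r hra hrb hrc ⟨x, xb, xc, xr⟩ ⟨y, ya, yc, yr⟩ ⟨z, za, zb, zr⟩
    by_cases hxy : x = y
    · subst hxy; exact ⟨x, ya, xb, xc⟩
    by_cases hxz : x = z
    · subst hxz; exact ⟨x, za, xb, xc⟩
    by_cases hyz : y = z
    · subst hyz; exact ⟨y, ya, zb, yc⟩
    -- `c - r = (c - x) + (x - r) = (c - y) + (y - r)`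
    have key : ∀ c x y : A, r ≠ c → x ≠ y → (R S hS).Adj x c → (R S hS).Adj x r →
        (R S hS).Adj y c → (R S hS).Adj y r → c - x = y - r := by
      intro c x y hrc hxy h1 h2 h3 h4
      have h1' := h1.symm
      have h3' := h3.symm
      rw [adj_iff] at *
      have e : (c - x) + (x - r) = (c - y) + (y - r) := by abel
      have hne : (c - x) + (x - r) ≠ 0 := by
        have : (c - x) + (x - r) = c - r := by abel
        rw [this]; exact sub_ne_zero.2 (Ne.symm hrc)
      rcases hS.uniq _ h1' _ h2 _ h3' _ h4 hne e with h | h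
      · exfalso; apply hxy
        have := h.2
        have h5 : y = x := by simpa using this
        exact h5.symm
      · exact h.2.symm
    have kc := key c x y hrc hxy xc xr yc yr
    have kb := key b x z hrb hxz xb xr zb zr
    have ka := key a y z hra hyz ya yr za zr
    refine ⟨x + y + z - r - r, ?_, ?_, ?_⟩
    · rw [adj_iff] at *
      have : x + y + z - r - r - a = x - r := by
        have : a = y + (z - r) := by rw [← ka]; abel
        rw [this]; abel
      rw [this]; exact xr
    · rw [adj_iff] at *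
      have : x + y + z - r - r - b = y - r := by
        have : b = x + (z - r) := by rw [← kb]; abel
        rw [this]; abel
      rw [this]; exact yr
    · rw [adj_iff] at *
      have : x + y + z - r - r - c = z - r := by
        have : c = x + (y - r) := by rw [← kc]; abel
        rw [this]; abel
      rw [this]; exact zr
  by_cases ra : (R S hS).Adj r a
  · by_cases rb : (R S hS).Adj r b
    · rcases hc with rc | hc
      · exact hD ⟨r, ra, rb, rc⟩
      · exact two a b r hab ra rb hc
    · have hb' := hb.resolve_left rb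
      by_cases rc : (R S hS).Adj r c
      · exact two a c r hac ra rc hb'
      · exact hD (one a b c r ra hb' (hc.resolve_left rc))
  · have ha' := ha.resolve_left ra
    by_cases rb : (R S hS).Adj r b
    · by_cases rc : (R S hS).Adj r c
      · exact two b c r hbc rb rc ha'
      · obtain ⟨w, h1, h2, h3⟩ := one b a c r rb ha' (by
          obtain ⟨w, h1, h2, h3⟩ := hc.resolve_left rc
          exact ⟨w, h2, h1, h3⟩)
        exact hD ⟨w, h2, h1, h3⟩
    · have hb' := hb.resolve_left rb
      by_cases rc : (R S hS).Adj r c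
      · obtain ⟨w, h1, h2, h3⟩ := one c a b r rc (by
          obtain ⟨w, h1, h2, h3⟩ := ha'
          exact ⟨w, h2, h1, h3⟩) (by
          obtain ⟨w, h1, h2, h3⟩ := hb'
          exact ⟨w, h2, h1, h3⟩)
        exact hD ⟨w, h2, h3, h1⟩
      · exact hD (zer a b c r hra hrb hrc ha' hb' (hc.resolve_left rc))

/-- The family is closed. -/
theorem fam_closed (D : Finset A) (hD : D ∈ Fam hS) (v : A) (hv : v ∉ D) :
    ∃ u ∈ D, ¬ (R S hS).Adj u v ∧ insert v (D.erase u) ∈ Fam hS := by
  obtain ⟨hc, hn⟩ := hD
  obtain ⟨a, b, c, hab, hac, hbc, rfl⟩ := Finset.card_eq_three.1 hc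
  have hva : v ≠ a := fun h => hv (by simp [h])
  have hvb : v ≠ b := fun h => hv (by simp [h])
  have hvc : v ≠ c := fun h => hv (by simp [h])
  by_contra hcon
  push Not at hcon
  have gen : ∀ u ∈ ({a, b, c} : Finset A), ∀ p q : A,
      ((({a, b, c} : Finset A).erase u) = {p, q}) →
      (R S hS).Adj v u ∨ ∃ w, (R S hS).Adj w p ∧ (R S hS).Adj w q ∧ (R S hS).Adj w v := by
    intro u hu p q hpq
    by_cases h : (R S hS).Adj u v
    · exact Or.inl h.symm
    · right
      by_contra hno
      apply hcon u hu h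
      refine ⟨?_, ?_⟩
      · rw [Finset.card_insert_of_notMem, Finset.card_erase_of_mem hu, hc]
        intro h'
        exact hv (Finset.mem_of_mem_erase h')
      · rintro ⟨w, hw⟩
        apply hno
        rw [hpq] at hw
        exact ⟨w, hw p (by simp), hw q (by simp), hw v (by simp)⟩
  apply defend hS a b c v hva hvb hvc hab hac hbc
  · rintro ⟨w, h1, h2, h3⟩
    apply hn
    refine ⟨w, ?_⟩
    intro d hd
    simp only [Finset.mem_insert, Finset.mem_singleton] at hd
    rcases hd with rfl | rfl | rfl <;> assumption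
  · apply gen a (by simp) b c
    ext x; simp only [Finset.mem_erase, Finset.mem_insert, Finset.mem_singleton]
    constructor
    · rintro ⟨h1, h2 | h2 | h2⟩
      · exact absurd h2 h1
      · exact Or.inl h2
      · exact Or.inr h2
    · rintro (h | h)
      · subst h; exact ⟨hab.symm, by simp⟩
      · subst h; exact ⟨hac.symm, by simp⟩
  · apply gen b (by simp) a c
    ext x; simp only [Finset.mem_erase, Finset.mem_insert, Finset.mem_singleton]
    constructor
    · rintro ⟨h1, h2 | h2 | h2⟩
      · exact Or.inl h2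
      · exact absurd h2 h1
      · exact Or.inr h2
    · rintro (h | h)
      · subst h; exact ⟨hab, by simp⟩
      · subst h; exact ⟨hbc.symm, by simp⟩
  · apply gen c (by simp) a b
    ext x; simp only [Finset.mem_erase, Finset.mem_insert, Finset.mem_singleton]
    constructor
    · rintro ⟨h1, h2 | h2 | h2⟩
      · exact Or.inl h2
      · exact Or.inr h2
      · exact absurd h2 h1
    · rintro (h | h)
      · subst h; exact ⟨hac, by simp⟩
      · subst h; exact ⟨hbc, by simp⟩

/-- Two vertices have a common neighbour. -/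
theorem common (x y : A) (hne : S.Nonempty) : ∃ w, (R S hS).Adj w x ∧ (R S hS).Adj w y := by
  by_cases h : x = y
  · obtain ⟨s, hs⟩ := hne
    subst h
    refine ⟨x + s, ?_, ?_⟩ <;> rw [adj_iff] <;> simpa using hs
  · obtain ⟨s, hs, t, ht, hst⟩ := hS.rep (x - y) (sub_ne_zero.2 h)
    refine ⟨y + t, ?_, ?_⟩
    · rw [adj_iff]
      have : y + t - x = -s := by
        have : x = s + t + y := by rw [hst]; abel
        rw [this]; abel
      rw [this]; exact hS.neg _ hs
    · rw [adj_iff]; simpa using ht

/-- Small sets have a common neighbour. -/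
theorem small (T : Finset A) (hT : T.card < 3) (hne : S.Nonempty) :
    ∃ w, ∀ t ∈ T, (R S hS).Adj w t := by
  have h : T.card = 0 ∨ T.card = 1 ∨ T.card = 2 := by omega
  rcases h with h | h | h
  · rw [Finset.card_eq_zero] at h
    subst h
    exact ⟨0, by simp⟩
  · obtain ⟨x, rfl⟩ := Finset.card_eq_one.1 h
    obtain ⟨w, h1, h2⟩ := common hS x x hne
    exact ⟨w, by simpa using h1⟩
  · obtain ⟨x, y, hxy, rfl⟩ := Finset.card_eq_two.1 h
    obtain ⟨w, h1, h2⟩ := common hS x y hne
    refine ⟨w, ?_⟩
    intro t ht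
    simp only [Finset.mem_insert, Finset.mem_singleton] at ht
    rcases ht with rfl | rfl <;> assumption

/-- The family is not empty. -/
theorem fam_nonempty (hne : S.Nonempty) : (Fam hS).Nonempty := by
  obtain ⟨s, hs⟩ := hne
  have hs0 : s ≠ 0 := fun h => hS.zero (h ▸ hs)
  have h3 := hS.three s
  have hns : s ≠ -s := by
    intro h
    have h0 : s + s = 0 := by rw [← sub_neg_eq_add, ← h, sub_self]
    rw [h0, zero_add] at h3
    exact hs0 h3
  have hn0 : -s ≠ 0 := neg_ne_zero.2 hs0
  refine ⟨{0, s, -s}, ?_, ?_⟩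
  · rw [Finset.card_eq_three]
    exact ⟨0, s, -s, hs0.symm, hn0.symm, hns, rfl⟩
  · rintro ⟨w, hw⟩
    have w0 := hw 0 (by simp)
    have w1 := hw s (by simp)
    have w2 := hw (-s) (by simp)
    have a1 : (R S hS).Adj s 0 := by rw [adj_iff]; simpa using hs
    have a2 : (R S hS).Adj (-s) 0 := by rw [adj_iff]; simpa using hS.neg _ hs
    have k1 := third hS s 0 w a1 w1.symm w0
    have k2 := third hS (-s) 0 w a2 w2.symm w0
    simp only [add_zero, neg_neg] at k1 k2
    exact hns (k2.symm.trans k1)

end Pool.Agent.W835.Golay
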