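import Pool.Agent.W835.Golay

set_option autoImplicit false
set_option linter.unusedSectionVars false

namespace Pool.Agent.W835.Golay

open Finset

variable {A : Type} [AddCommGroup A] [DecidableEq A] [Fintype A]

/-- The Cayley graph is not 3-colourable when `|A| = 243` and `|S| = 22`. -/
theorem not_colorable {S : Finset A} (hS : Perf S) (hA : Fintype.card A = 243)
    (hcard : S.card = 22) : ¬ (R S hS).Colorable 3 := by
  rintro ⟨C⟩
  let z : A → ℕ := fun x => if C x = 0 then 1 else 0
  have hz : ∀ x, z x = if C x = 0 then 1 else 0 := fun x => rfl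
  have line : ∀ x, ∀ t ∈ S, z x + z (x + t) + z (x - t) = 1 := by
    intro x t ht
    have a1 : C (x + t) ≠ C x := C.valid (by
      show x + t - x ∈ S
      rw [add_sub_cancel_left]; exact ht)
    have a2 : C x ≠ C (x - t) := C.valid (by
      show x - (x - t) ∈ S
      rw [sub_sub_cancel]; exact ht)
    have a3 : C (x + t) ≠ C (x - t) := C.valid (by
      show x + t - (x - t) ∈ S
      have : x + t - (x - t) = -t := by
        have h := hS.three t
        have h2 : t + t = -t := by rw [eq_neg_iff_add_eq_zero]; exact h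
        rw [← h2]; abel
      rw [this]; exact hS.neg _ ht)
    rw [hz, hz, hz]
    generalize C x = p at *
    generalize C (x + t) = q at *
    generalize C (x - t) = r at *
    revert p q r
    decide
  have hne : S.Nonempty := by
    rw [← Finset.card_pos, hcard]; norm_num
  -- the colour class has 81 elements
  have tot : ∑ x, z x = 81 := by
    obtain ⟨t, ht⟩ := hne
    have h1 : ∑ x, (z x + z (x + t) + z (x - t)) = 243 := by
      rw [Finset.sum_congr rfl (fun x _ => line x t ht)]
      simp [hA]
    rw [Finset.sum_add_distrib, Finset.sum_add_distrib] at h1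
    have h2 : ∑ x, z (x + t) = ∑ x, z x := Equiv.sum_comp (Equiv.addRight t) z
    have h3 : ∑ x, z (x - t) = ∑ x, z x := Equiv.sum_comp (Equiv.subRight t) z
    omega
  have nbr : ∀ x, 22 * z x + 2 * ∑ t ∈ S, z (x + t) = 22 := by
    intro x
    have h1 : ∑ t ∈ S, (z x + z (x + t) + z (x - t)) = 22 := by
      rw [Finset.sum_congr rfl (fun t ht => line x t ht)]
      simp [hcard]
    rw [Finset.sum_add_distrib, Finset.sum_add_distrib] at h1
    have h2 : ∑ t ∈ S, z (x - t) = ∑ t ∈ S, z (x + t) := by
      apply Finset.sum_nbij' (fun t => -t) (fun t => -t)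
      · exact fun t ht => hS.neg t ht
      · exact fun t ht => hS.neg t ht
      · exact fun t _ => neg_neg t
      · exact fun t _ => neg_neg t
      · intro t _; rw [sub_eq_add_neg]
    rw [h2] at h1
    simp only [Finset.sum_const, hcard, smul_eq_mul] at h1
    omega
  have ex : ∃ v, z v = 1 := by
    by_contra h
    push Not at h
    have : ∀ x, z x = 0 := by
      intro x
      have h1 := h x
      rw [hz] at h1 ⊢
      split_ifs at h1 ⊢ <;> simp_all
    simp [this] at tot
  obtain ⟨v, hv⟩ := ex
  have hv0 : ∑ t ∈ S, z (v + t) = 0 := by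
    have := nbr v
    omega
  have hv1 : ∀ s ∈ S, z (v + s) = 0 := by
    intro s hs
    exact (Finset.sum_eq_zero_iff.1 hv0) s hs
  have walks : ∑ s ∈ S, ∑ t ∈ S, z (v + (s + t)) = 242 := by
    have : ∀ s ∈ S, ∑ t ∈ S, z (v + (s + t)) = 11 := by
      intro s hs
      have h1 := nbr (v + s)
      rw [hv1 s hs] at h1
      have h2 : ∑ t ∈ S, z (v + (s + t)) = ∑ t ∈ S, z (v + s + t) :=
        Finset.sum_congr rfl (fun t _ => by rw [add_assoc])
      omega
    rw [Finset.sum_congr rfl this]
    simp [hcard]
  -- upper bound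
  have up : ∑ s ∈ S, ∑ t ∈ S, z (v + (s + t)) ≤ 182 := by
    rw [← Finset.sum_product']
    rw [← Finset.sum_fiberwise_of_maps_to (s := S ×ˢ S) (t := (Finset.univ : Finset A))
      (g := fun p => p.1 + p.2) (fun _ _ => Finset.mem_univ _)]
    have h1 : ∀ x : A, ∑ p ∈ (S ×ˢ S).filter (fun p => p.1 + p.2 = x), z (v + (p.1 + p.2)) =
        ((S ×ˢ S).filter (fun p => p.1 + p.2 = x)).card * z (v + x) := by
      intro x
      rw [Finset.sum_congr rfl (g := fun _ => z (v + x))]
      · simp
      · intro p hp
        rw [(Finset.mem_filter.1 hp).2]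
    rw [Finset.sum_congr rfl (fun x _ => h1 x)]
    have r0 : ((S ×ˢ S).filter (fun p => p.1 + p.2 = (0 : A))).card ≤ 22 := by
      rw [← hcard]
      apply Finset.card_le_card_of_injOn (fun p => p.1)
      · intro p hp
        exact (Finset.mem_product.1 (Finset.mem_filter.1 hp).1).1
      · intro p hp q hq hpq
        have h1 := (Finset.mem_filter.1 (Finset.mem_coe.1 hp)).2
        have h2 := (Finset.mem_filter.1 (Finset.mem_coe.1 hq)).2
        have h3 : p.1 = q.1 := hpq
        have h4 : p.2 = q.2 := by
          rw [← h3] at h2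
          exact add_left_cancel (h1.trans h2.symm)
        exact Prod.ext h3 h4
    have r2 : ∀ x : A, x ≠ 0 →
        ((S ×ˢ S).filter (fun p => p.1 + p.2 = x)).card ≤ 2 := by
      intro x hx
      obtain ⟨s, hs, t, ht, hst⟩ := hS.rep x hx
      have hsub : (S ×ˢ S).filter (fun p => p.1 + p.2 = x) ⊆ {(s, t), (t, s)} := by
        intro p hp
        have hp1 := (Finset.mem_filter.1 hp).2
        have hp2 := Finset.mem_product.1 (Finset.mem_filter.1 hp).1
        have := hS.uniq s hs t ht p.1 hp2.1 p.2 hp2.2 (by rw [hst]; exact hx) (by rw [hst, hp1])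
        simp only [Finset.mem_insert, Finset.mem_singleton]
        rcases this with h | h
        · left; exact Prod.ext h.1 h.2
        · right; exact Prod.ext h.1 h.2
      exact (Finset.card_le_card hsub).trans Finset.card_le_two
    have tot' : ∑ x, z (v + x) = 81 := by
      rw [← tot]; exact Equiv.sum_comp (Equiv.addLeft v) z
    rw [← Finset.add_sum_erase _ _ (Finset.mem_univ (0 : A))] at tot' ⊢
    rw [add_zero, hv] at tot'
    have e1 : ∑ x ∈ (Finset.univ : Finset A).erase 0, z (v + x) = 80 := by omega
    have e2 : ∑ x ∈ (Finset.univ : Finset A).erase 0,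
        ((S ×ˢ S).filter (fun p => p.1 + p.2 = x)).card * z (v + x) ≤
        ∑ x ∈ (Finset.univ : Finset A).erase 0, 2 * z (v + x) :=
      Finset.sum_le_sum (fun x hx => Nat.mul_le_mul_right _ (r2 x (Finset.ne_of_mem_erase hx)))
    rw [← Finset.mul_sum, e1] at e2
    have e3 : ((S ×ˢ S).filter (fun p => p.1 + p.2 = (0 : A))).card * z (v + 0) ≤ 22 := by
      rw [add_zero, hv, mul_one]; exact r0
    omega
  omega

end Pool.Agent.W835.Golay
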