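import Pool.Agent.W835.GolayCol

set_option autoImplicit false

namespace Pool.Agent.W835.Golay

/-- The syndromes of the ternary Golay code of length 11. -/
abbrev V : Type := ZMod 3 × ZMod 3 × ZMod 3 × ZMod 3 × ZMod 3

/-- The columns of the parity check matrix and their negatives. -/
def SL : List V := [
    (1, 0, 0, 0, 0),
    (2, 0, 0, 0, 0),
    (0, 1, 0, 0, 0),
    (0, 2, 0, 0, 0),
    (0, 0, 1, 0, 0),
    (0, 0, 2, 0, 0),
    (0, 0, 0, 1, 0),
    (0, 0, 0, 2, 0),
    (0, 0, 0, 0, 1),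
    (0, 0, 0, 0, 2),
    (1, 0, 2, 1, 2),
    (2, 0, 1, 2, 1),
    (2, 1, 1, 1, 2),
    (1, 2, 2, 2, 1),
    (2, 2, 2, 0, 2),
    (1, 1, 1, 0, 1),
    (2, 2, 0, 1, 1),
    (1, 1, 0, 2, 2),
    (1, 2, 1, 1, 0),
    (2, 1, 2, 2, 0),
    (0, 1, 2, 1, 1),
    (0, 2, 1, 2, 2)]

/-- Fast membership test. -/
def inS (x : V) : Bool :=
  Nat.testBit 3452558594294014811943746627597499524572656766024418081417129219064398
    (x.1.val + 3 * x.2.1.val + 9 * x.2.2.1.val + 27 * x.2.2.2.1.val + 81 * x.2.2.2.2.val)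

/-- The connection set. -/
def S : Finset V := Finset.univ.filter (fun x => inS x = true)

theorem mem_S (x : V) : x ∈ S ↔ inS x = true := by simp [S]

theorem inS_iff : ∀ x : V, inS x = true ↔ x ∈ SL := by decide +kernel

theorem S_card : S.card = 22 := by decide +kernel

theorem uniq1 : ∀ s ∈ SL, ∀ t ∈ SL, s + t ≠ 0 → ∀ s' ∈ SL, inS (s + t - s') = true →
    s' = s ∨ s' = t := by decide +kernel

theorem rep1 : ∀ x : V, x ≠ 0 → ∃ s ∈ SL, inS (x - s) = true := by decide +kernel

theorem neg1 : ∀ s ∈ SL, inS (-s) = true := by decide +kernel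

theorem perf : Perf S where
  three := by decide +kernel
  neg := fun s hs => (mem_S _).2 (neg1 s ((inS_iff s).1 ((mem_S s).1 hs)))
  zero := by rw [mem_S]; decide +kernel
  rep := fun x hx => by
    obtain ⟨s, hs, h⟩ := rep1 x hx
    exact ⟨s, (mem_S s).2 ((inS_iff s).2 hs), x - s, (mem_S _).2 h, by abel⟩
  uniq := fun s hs t ht s' hs' t' ht' hne he => by
    have h := uniq1 s ((inS_iff s).1 ((mem_S s).1 hs)) t ((inS_iff t).1 ((mem_S t).1 ht)) hne s'
      ((inS_iff s').1 ((mem_S s').1 hs')) (by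
        have : s + t - s' = t' := by rw [he]; abel
        rw [this]; exact (mem_S t').1 ht')
    rcases h with h | h
    · left
      refine ⟨h, ?_⟩
      rw [h] at he; exact (add_left_cancel he).symm
    · right
      refine ⟨h, ?_⟩
      rw [h, add_comm s t] at he; exact (add_left_cancel he).symm

end Pool.Agent.W835.Golay
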